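import Pool.Agent.Lib.MP_ff3579_an.X.Iface

set_option autoImplicit false

open Polynomial

namespace Pool.Agent.Lib.MP_ff3579_an.X.H05

open Pool.Agent.Lib.MP_ff3579_an
open Pool.Agent.Lib.MP_ff3579_an.X

section odd

variable {N : ℕ}

lemma ns_simple {N p r s c : ℕ} (j₁ j₂ : ℕ) (hirr : Irreducible (Zp N)) (hp : p.Prime)
    (hr : r.Prime) (hr2 : r ≠ 2) (hs : ¬ r ∣ s) (hN : 2 * N < p ^ 3)
    (hM : ∀ j < N / 2 + 1, s * j + r * (lg p (2 * j) + lg p (N - 2 * j)) ≤
      r * lg p (N + 2 * j) + c)
    (hne : j₁ ≠ j₂) (hj₁ : 2 * j₁ ≤ N) (hj₂ : 2 * j₂ ≤ N)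
    (h1 : s * j₁ + r * (lg p (2 * j₁) + lg p (N - 2 * j₁)) = r * lg p (N + 2 * j₁) + c)
    (h2 : s * j₂ + r * (lg p (2 * j₂) + lg p (N - 2 * j₂)) = r * lg p (N + 2 * j₂) + c)
    (a0 : 0 < N / 2) (a1 : N / 2 ≤ 4 * r) (a2 : (N / 2) % r ≠ 0) (a3 : (N / 2) % (r + 1) ≠ 0)
    (a4 : (N / 2) % (2 * r + 1) ≠ 0) (a5 : (N / 2) % (3 * r + 1) ≠ 0) :
    ¬ Group.IsSolvable ((Zp N).map (Int.castRingHom ℚ)).Gal :=
  explicit j₁ j₂ hirr hp hr hs hN hM hne hj₁ hj₂ h1 h2
    (not_admissible_simple hr hr2 a0 a1 a2 a3 a4 a5)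

lemma ns11 (h : Irreducible (Zp 11)) : ¬ Group.IsSolvable ((Zp 11).map (Int.castRingHom ℚ)).Gal :=
  ns_simple (p := 5) (r := 3) (s := 1) (c := 0) 0 3 h (by norm_num) (by norm_num) (by norm_num)
    (by norm_num) (by norm_num) (by decide) (by norm_num) (by norm_num) (by norm_num) (by decide)
    (by decide) (by norm_num) (by norm_num) (by norm_num) (by norm_num) (by norm_num) (by norm_num)

lemma ns12 (h : Irreducible (Zp 12)) : ¬ Group.IsSolvable ((Zp 12).map (Int.castRingHom ℚ)).Gal :=
  explicit (p := 5) (r := 5) (s := 2) (c := 2) 1 6 h (by norm_num) (by norm_num)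
    (by norm_num) (by norm_num) (by decide) (by norm_num) (by norm_num) (by norm_num)
    (by decide) (by decide)
    (not_admissible_of_lt (by norm_num) (by norm_num) (by norm_num) (by norm_num)
      (Or.inr ⟨3, by norm_num, by norm_num, by norm_num⟩))

lemma ns13 (h : Irreducible (Zp 13)) : ¬ Group.IsSolvable ((Zp 13).map (Int.castRingHom ℚ)).Gal :=
  explicit (p := 11) (r := 5) (s := 1) (c := 1) 1 6 h (by norm_num) (by norm_num)
    (by norm_num) (by norm_num) (by decide) (by norm_num) (by norm_num) (by norm_num)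
    (by decide) (by decide)
    (not_admissible_of_lt (by norm_num) (by norm_num) (by norm_num) (by norm_num)
      (Or.inr ⟨3, by norm_num, by norm_num, by norm_num⟩))

lemma ns14 (h : Irreducible (Zp 14)) : ¬ Group.IsSolvable ((Zp 14).map (Int.castRingHom ℚ)).Gal :=
  ns_simple (p := 5) (r := 5) (s := 2) (c := 0) 0 5 h (by norm_num) (by norm_num) (by norm_num)
    (by norm_num) (by norm_num) (by decide) (by norm_num) (by norm_num) (by norm_num) (by decide)
    (by decide) (by norm_num) (by norm_num) (by norm_num) (by norm_num) (by norm_num) (by norm_num)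

lemma ns15 (h : Irreducible (Zp 15)) : ¬ Group.IsSolvable ((Zp 15).map (Int.castRingHom ℚ)).Gal :=
  ns_simple (p := 11) (r := 5) (s := 1) (c := 2) 2 7 h (by norm_num) (by norm_num) (by norm_num)
    (by norm_num) (by norm_num) (by decide) (by norm_num) (by norm_num) (by norm_num) (by decide)
    (by decide) (by norm_num) (by norm_num) (by norm_num) (by norm_num) (by norm_num) (by norm_num)

lemma ns16 (h : Irreducible (Zp 16)) : ¬ Group.IsSolvable ((Zp 16).map (Int.castRingHom ℚ)).Gal :=
  ns_simple (p := 5) (r := 5) (s := 3) (c := 4) 3 8 h (by norm_num) (by norm_num) (by norm_num)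
    (by norm_num) (by norm_num) (by decide) (by norm_num) (by norm_num) (by norm_num) (by decide)
    (by decide) (by norm_num) (by norm_num) (by norm_num) (by norm_num) (by norm_num) (by norm_num)

lemma ns17 (h : Irreducible (Zp 17)) : ¬ Group.IsSolvable ((Zp 17).map (Int.castRingHom ℚ)).Gal :=
  ns_simple (p := 5) (r := 5) (s := 3) (c := 4) 3 8 h (by norm_num) (by norm_num) (by norm_num)
    (by norm_num) (by norm_num) (by decide) (by norm_num) (by norm_num) (by norm_num) (by decide)
    (by decide) (by norm_num) (by norm_num) (by norm_num) (by norm_num) (by norm_num) (by norm_num)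

lemma ns19 (h : Irreducible (Zp 19)) : ¬ Group.IsSolvable ((Zp 19).map (Int.castRingHom ℚ)).Gal :=
  ns_simple (p := 11) (r := 5) (s := 1) (c := 1) 1 6 h (by norm_num) (by norm_num) (by norm_num)
    (by norm_num) (by norm_num) (by decide) (by norm_num) (by norm_num) (by norm_num) (by decide)
    (by decide) (by norm_num) (by norm_num) (by norm_num) (by norm_num) (by norm_num) (by norm_num)

lemma ns21 (h : Irreducible (Zp 21)) : ¬ Group.IsSolvable ((Zp 21).map (Int.castRingHom ℚ)).Gal :=
  fun hsol => not_admissible_simple (r := 7) (m := 10) (by norm_num) (by norm_num)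
    (by norm_num) (by norm_num) (by norm_num) (by norm_num) (by norm_num) (by norm_num)
    (standard h (by norm_num) (by norm_num) (by norm_num) (by decide) hsol)

lemma ns23 (h : Irreducible (Zp 23)) : ¬ Group.IsSolvable ((Zp 23).map (Int.castRingHom ℚ)).Gal :=
  ns_simple (p := 7) (r := 7) (s := 2) (c := 2) 1 8 h (by norm_num) (by norm_num) (by norm_num)
    (by norm_num) (by norm_num) (by decide) (by norm_num) (by norm_num) (by norm_num) (by decide)
    (by decide) (by norm_num) (by norm_num) (by norm_num) (by norm_num) (by norm_num) (by norm_num)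

lemma not_adm_12 : ¬ Admissible 11 12 := by
  rintro (h | ⟨p, i, hp, hi, hpm, hrp⟩)
  · norm_num at h
  · have h1 : p ^ i ≤ 12 := Nat.le_of_dvd (by norm_num) hpm
    have h2 : 2 ≤ p ^ i := by
      calc 2 ≤ p := hp.two_le
        _ = p ^ 1 := (pow_one p).symm
        _ ≤ p ^ i := Nat.pow_le_pow_right hp.pos hi
    obtain ⟨c, hc⟩ := hrp
    have h3 : p ^ i = 12 := by omega
    have h4 : 2 ∣ p ^ i := by rw [h3]; norm_num
    have h5 : 3 ∣ p ^ i := by rw [h3]; norm_num
    have h6 := (Nat.prime_dvd_prime_iff_eq Nat.prime_two hp).1 (Nat.prime_two.dvd_of_dvd_pow h4)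
    have h7 := (Nat.prime_dvd_prime_iff_eq Nat.prime_three hp).1 (Nat.prime_three.dvd_of_dvd_pow h5)
    omega

lemma ns25 (h : Irreducible (Zp 25)) : ¬ Group.IsSolvable ((Zp 25).map (Int.castRingHom ℚ)).Gal := by
  refine explicit (p := 23) (r := 11) (s := 1) (c := 1) 1 12 h (by norm_num) (by norm_num)
    (by norm_num) (by norm_num) (by decide) (by norm_num) (by norm_num) (by norm_num)
    (by decide) (by decide) ?_
  exact not_adm_12

lemma ns27 (h : Irreducible (Zp 27)) : ¬ Group.IsSolvable ((Zp 27).map (Int.castRingHom ℚ)).Gal :=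
  ns_simple (p := 23) (r := 11) (s := 1) (c := 2) 2 13 h (by norm_num) (by norm_num) (by norm_num)
    (by norm_num) (by norm_num) (by decide) (by norm_num) (by norm_num) (by norm_num) (by decide)
    (by decide) (by norm_num) (by norm_num) (by norm_num) (by norm_num) (by norm_num) (by norm_num)

lemma ns29 (h : Irreducible (Zp 29)) : ¬ Group.IsSolvable ((Zp 29).map (Int.castRingHom ℚ)).Gal :=
  ns_simple (p := 23) (r := 11) (s := 1) (c := 3) 3 14 h (by norm_num) (by norm_num) (by norm_num)
    (by norm_num) (by norm_num) (by decide) (by norm_num) (by norm_num) (by norm_num) (by decide)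
    (by decide) (by norm_num) (by norm_num) (by norm_num) (by norm_num) (by norm_num) (by norm_num)

lemma ns31 (h : Irreducible (Zp 31)) : ¬ Group.IsSolvable ((Zp 31).map (Int.castRingHom ℚ)).Gal :=
  ns_simple (p := 23) (r := 11) (s := 1) (c := 4) 4 15 h (by norm_num) (by norm_num) (by norm_num)
    (by norm_num) (by norm_num) (by decide) (by norm_num) (by norm_num) (by norm_num) (by decide)
    (by decide) (by norm_num) (by norm_num) (by norm_num) (by norm_num) (by norm_num) (by norm_num)

end odd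

/-- even `N ≥ 18` -/
lemma ns_even {N : ℕ} (hN : 18 ≤ N) (hpar : N % 2 = 0) (hirr : Irreducible (Zp N)) :
    ¬ Group.IsSolvable ((Zp N).map (Int.castRingHom ℚ)).Gal := by
  obtain ⟨m, hm⟩ : ∃ m, N = 2 * m := ⟨N / 2, by omega⟩
  have hm2 : N / 2 = m := by omega
  obtain ⟨r, hr, hr2, h1, h2, h3, hA⟩ := exists_prime_even (m := m) (by omega)
  intro hsol
  apply hA
  rw [← hm2]
  refine standard hirr hr hr2 (by omega) ?_ hsol
  have hodd : r % 2 = 1 := hr.eq_two_or_odd.resolve_left hr2
  have hdm := Nat.div_add_mod N r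
  have hlt := Nat.mod_lt N hr.pos
  have hge2 : 2 ≤ N / r := (Nat.le_div_iff_mul_le hr.pos).2 (by omega)
  rcases Nat.lt_or_ge (N / r) 3 with h4 | h4
  · have h5 : N / r = 2 := by omega
    rw [h5] at hdm ⊢
    omega
  · omega

/-! ### inertia degree -/

section inertia

open NumberField Ideal

/-- an irreducible factor modulo `p` of a split polynomial has degree dividing `[K : ℚ]` -/
lemma natDegree_dvd_finrank (K : Type*) [Field K] [NumberField K] [IsGalois ℚ K] {f : ℤ[X]}
    (hf : f.Monic) (hsplit : (f.map (Int.castRingHom K)).Splits) {r : ℕ} [Fact r.Prime]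
    {g : (ZMod r)[X]} (hg : Irreducible g) (hgf : g ∣ f.map (Int.castRingHom (ZMod r))) :
    g.natDegree ∣ Module.finrank ℚ K := by
  have hr : r.Prime := Fact.out
  set p : Ideal ℤ := Ideal.span {(r : ℤ)} with hp
  have hp0 : p ≠ ⊥ := by
    rw [hp, Ne, Ideal.span_singleton_eq_bot]; exact_mod_cast hr.ne_zero
  have hpprime : p.IsPrime := by
    rw [hp, Ideal.span_singleton_prime (by exact_mod_cast hr.ne_zero)]
    exact Nat.prime_iff_prime_int.1 hr
  obtain ⟨⟨P, hP1, hP2⟩⟩ := p.nonempty_primesOver (S := 𝓞 K)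
  have hmap : p.map (algebraMap ℤ (𝓞 K)) = Ideal.span {(r : 𝓞 K)} := by
    rw [hp, Ideal.map_span]; simp
  have hr0 : (r : 𝓞 K) ≠ 0 := by exact_mod_cast hr.ne_zero
  have hmap0 : p.map (algebraMap ℤ (𝓞 K)) ≠ ⊥ := by
    rw [hmap, Ne, Ideal.span_singleton_eq_bot]; exact hr0
  have hPle : p.map (algebraMap ℤ (𝓞 K)) ≤ P := Ideal.map_le_of_le_comap (P.over_def p).le
  have hPbot : P ≠ ⊥ := ne_bot_of_le_ne_bot hmap0 hPle
  have hPmax : P.IsMaximal := hP1.isMaximal hPbot
  have hdvd : P.inertiaDeg ℤ ∣ Module.finrank ℚ K := by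
    have h1 := ncard_primesOver_mul_ramificationIdxIn_mul_inertiaDegIn p (𝓞 K) Gal(K/ℚ)
    rw [inertiaDegIn_eq_inertiaDeg p P Gal(K/ℚ),
      IsGaloisGroup.card_eq_finrank Gal(K/ℚ) ℚ K] at h1
    rw [← h1, ← mul_assoc]
    exact Dvd.intro_left _ rfl
  refine dvd_trans ?_ hdvd
  let _ : Field (𝓞 K ⧸ P) := Ideal.Quotient.field P
  have hrP : (r : 𝓞 K) ∈ P := by
    apply hPle
    rw [hmap]
    exact Ideal.mem_span_singleton_self _
  have hchar : CharP (𝓞 K ⧸ P) r := by
    refine (CharP.charP_iff_prime_eq_zero hr).2 ?_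
    have := (Ideal.Quotient.eq_zero_iff_mem (I := P)).2 hrP
    simpa using this
  let _ : Algebra (ZMod r) (𝓞 K ⧸ P) := ZMod.algebra _ r
  have hcard : Nat.card (𝓞 K ⧸ P) = r ^ P.inertiaDeg ℤ := by
    have h1 := absNorm_pow_inertiaDeg p P
    have h2 : p.absNorm = r := by
      rw [hp, Ideal.absNorm_span_singleton]
      simp
    rw [h2] at h1
    rw [h1]
    exact (Submodule.cardQuot_apply _).symm
  have : Finite (𝓞 K ⧸ P) := by
    apply Nat.finite_of_card_ne_zero
    rw [hcard]
    exact pow_ne_zero _ hr.ne_zero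
  have : Module.Finite (ZMod r) (𝓞 K ⧸ P) := Module.Finite.of_finite
  have hfin : Module.finrank (ZMod r) (𝓞 K ⧸ P) = P.inertiaDeg ℤ := by
    have h1 := Module.natCard_eq_pow_finrank (K := ZMod r) (V := 𝓞 K ⧸ P)
    rw [hcard, Nat.card_zmod] at h1
    exact (Nat.pow_right_injective hr.two_le h1).symm
  -- split over the ring of integers
  have hs1 : (f.map (Int.castRingHom (𝓞 K))).Splits := by
    have hmm : (f.map (Int.castRingHom (𝓞 K))).map (algebraMap (𝓞 K) K) =
        f.map (Int.castRingHom K) := by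
      rw [Polynomial.map_map]
      congr 1
    refine Splits.of_splits_map_of_injective (i := algebraMap (𝓞 K) K)
      (RingOfIntegers.coe_injective) (by rw [hmm]; exact hsplit) ?_
    intro a ha
    rw [hmm] at ha
    have hroot := (mem_roots'.1 ha).2
    have hint : IsIntegral ℤ a := ⟨f, hf, by
      rw [IsRoot.def, eval_map] at hroot
      exact hroot⟩
    exact ⟨⟨a, hint⟩, rfl⟩
  have hs2 : ((f.map (Int.castRingHom (ZMod r))).map (algebraMap (ZMod r) (𝓞 K ⧸ P))).Splits := by
    have h1 := hs1.map (Ideal.Quotient.mk P)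
    have h2 : (f.map (Int.castRingHom (𝓞 K))).map (Ideal.Quotient.mk P) =
        (f.map (Int.castRingHom (ZMod r))).map (algebraMap (ZMod r) (𝓞 K ⧸ P)) := by
      rw [Polynomial.map_map, Polynomial.map_map]
      congr 1
      exact RingHom.ext_int _ _
    rw [← h2]
    exact h1
  have hs3 : (g.map (algebraMap (ZMod r) (𝓞 K ⧸ P))).Splits := by
    refine hs2.of_dvd ?_ (Polynomial.map_dvd _ hgf)
    exact ((hf.map _).map _).ne_zero
  rw [← hfin]
  exact Polynomial.Irreducible.natDegree_dvd_finrank hg hs3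

/-- A version with a free rational algebra structure. -/
lemma natDegree_dvd_finrank' (K : Type*) [Field K] [inst : Algebra ℚ K] [IsGalois ℚ K]
    [FiniteDimensional ℚ K] {f : ℤ[X]}
    (hf : f.Monic) (hsplit : (f.map (Int.castRingHom K)).Splits) {r : ℕ} [Fact r.Prime]
    {g : (ZMod r)[X]} (hg : Irreducible g) (hgf : g ∣ f.map (Int.castRingHom (ZMod r))) :
    g.natDegree ∣ Module.finrank ℚ K := by
  have hc : CharZero K := algebraRat.charZero K
  have e : inst = DivisionRing.toRatAlgebra := Subsingleton.elim _ _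
  subst e
  have : NumberField K := ⟨⟩
  exact natDegree_dvd_finrank K hf hsplit hg hgf

lemma solvable_admissible {f : ℤ[X]} (hf : f.Monic) (hirr : Irreducible f) {q : ℕ}
    [Fact q.Prime] {g : (ZMod q)[X]} (hg : Irreducible g)
    (hgf : g ∣ f.map (Int.castRingHom (ZMod q))) {r : ℕ} (hr : r.Prime) (hrg : r ∣ g.natDegree)
    (hs : Group.IsSolvable (f.map (Int.castRingHom ℚ)).Gal) : Admissible r f.natDegree := by
  refine admissible_of_solvable hf hirr hr ?_ hs
  refine hrg.trans ?_
  set h := f.map (Int.castRingHom ℚ) with hh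
  have hgirr : Irreducible h := by
    have := (hf.irreducible_iff_irreducible_map_fraction_map (K := ℚ)).1 hirr
    rwa [algebraMap_int_eq] at this
  have hgal := @IsGalois.of_separable_splitting_field ℚ _ h.SplittingField _ _ h
    (IsSplittingField.splittingField h) hgirr.separable
  refine @natDegree_dvd_finrank' h.SplittingField _ _ hgal
    (@IsSplittingField.finiteDimensional ℚ h.SplittingField _ _ _ h
      (IsSplittingField.splittingField h)) f hf ?_ q _ g hg hgf
  have h3 := SplittingField.splits h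
  rw [hh, Polynomial.map_map] at h3
  have h4 : Int.castRingHom h.SplittingField =
    (algebraMap ℚ (map (Int.castRingHom ℚ) f).SplittingField).comp (Int.castRingHom ℚ) :=
    RingHom.ext_int _ _
  rw [h4]
  exact h3

lemma Zp_ten : Zp 10 = X ^ 5 - C 5940 * X ^ 4 + C 5045040 * X ^ 3 - C 1210809600 * X ^ 2 +
    C 79394515200 * X - C 670442572800 := by
  unfold Zp
  have h0 : cf 10 0 = 1 := by decide
  have h1 : cf 10 1 = 5940 := by decide +kernel
  have h2 : cf 10 2 = 5045040 := by decide +kernel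
  have h3 : cf 10 3 = 1210809600 := by decide +kernel
  have h4 : cf 10 4 = 79394515200 := by decide +kernel
  have h5 : cf 10 5 = 670442572800 := by decide +kernel
  rw [show 10 / 2 + 1 = 6 from rfl]
  simp only [Finset.sum_range_succ, Finset.sum_range_zero, h0, h1, h2, h3, h4, h5]
  norm_num
  ring

instance : Fact (Nat.Prime 19) := ⟨by norm_num⟩

noncomputable def g19 : (ZMod 19)[X] := X ^ 3 + C 4 * X ^ 2 + C 15 * X + C 11

lemma g19_natDegree : g19.natDegree = 3 := by
  unfold g19
  compute_degree!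

lemma g19_irr : Irreducible g19 := by
  apply Polynomial.irreducible_of_degree_le_three_of_not_isRoot
  · rw [g19_natDegree]; decide
  · intro x
    unfold g19
    rw [IsRoot.def]
    simp only [eval_add, eval_mul, eval_pow, eval_X, eval_C]
    revert x
    decide

lemma g19_dvd : g19 ∣ (Zp 10).map (Int.castRingHom (ZMod 19)) := by
  refine ⟨X * (X + C 3), ?_⟩
  rw [Zp_ten]
  unfold g19
  simp only [Polynomial.map_add, Polynomial.map_sub, Polynomial.map_mul, Polynomial.map_pow,
    Polynomial.map_X, Polynomial.map_C]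
  have e1 : Int.castRingHom (ZMod 19) 5940 = 12 := by decide +kernel
  have e2 : Int.castRingHom (ZMod 19) 5045040 = 8 := by decide +kernel
  have e3 : Int.castRingHom (ZMod 19) 1210809600 = 1 := by decide +kernel
  have e4 : Int.castRingHom (ZMod 19) 79394515200 = 14 := by decide +kernel
  have e5 : Int.castRingHom (ZMod 19) 670442572800 = 0 := by decide +kernel
  rw [e1, e2, e3, e4, e5]
  have h19 : (19 : (ZMod 19)[X]) = 0 := by
    have h : (19 : ZMod 19) = 0 := by decide
    have h2 : (C (19 : ZMod 19) : (ZMod 19)[X]) = 0 := by rw [h, C_0]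
    rw [← h2]
    exact (map_ofNat C 19).symm
  simp only [map_ofNat, map_one, map_zero]
  linear_combination (-X ^ 4 - X ^ 3 - 3 * X ^ 2 - X) * h19

lemma ns10 (h : Irreducible (Zp 10)) :
    ¬ Group.IsSolvable ((Zp 10).map (Int.castRingHom ℚ)).Gal := by
  intro hs
  have h1 := solvable_admissible (Zp_monic 10) h g19_irr g19_dvd (r := 3) (by norm_num)
    (by rw [g19_natDegree]) hs
  rw [Zp_natDegree] at h1
  norm_num at h1
  rcases h1 with h1 | ⟨p, i, hp, hi, hpm, hrp⟩
  · norm_num at h1
  · have hp5 : p ∣ 5 := dvd_trans (dvd_pow_self p (by omega)) hpm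
    have hp' : p = 5 := (Nat.prime_dvd_prime_iff_eq hp (by norm_num)).1 hp5
    subst hp'
    have hi1 : i = 1 := by
      by_contra hne
      have : 5 ^ 2 ∣ 5 ^ i := pow_dvd_pow 5 (by omega)
      have := this.trans hpm
      norm_num at this
    subst hi1
    norm_num at hrp

end inertia

/-- module NSV -/
theorem nsv : NsvStatement := by
  intro N h1 h2 hirr
  by_cases hpar : N % 2 = 0 ∧ 18 ≤ N
  · exact ns_even hpar.2 hpar.1 hirr
  · interval_cases N
    · exact ns10 hirr
    · exact ns11 hirr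
    · exact ns12 hirr
    · exact ns13 hirr
    · exact ns14 hirr
    · exact ns15 hirr
    · exact ns16 hirr
    · exact ns17 hirr
    · exact absurd ⟨by norm_num, by norm_num⟩ hpar
    · exact ns19 hirr
    · exact absurd ⟨by norm_num, by norm_num⟩ hpar
    · exact ns21 hirr
    · exact absurd ⟨by norm_num, by norm_num⟩ hpar
    · exact ns23 hirr
    · exact absurd ⟨by norm_num, by norm_num⟩ hpar
    · exact ns25 hirr
    · exact absurd ⟨by norm_num, by norm_num⟩ hpar
    · exact ns27 hirr
    · exact absurd ⟨by norm_num, by norm_num⟩ hpar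
    · exact ns29 hirr
    · exact absurd ⟨by norm_num, by norm_num⟩ hpar
    · exact ns31 hirr
    · exact absurd ⟨by norm_num, by norm_num⟩ hpar

end Pool.Agent.Lib.MP_ff3579_an.X.H05
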