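import Pool.Agent.Lib.MP_ff3579_an.X.Iface

set_option autoImplicit false

namespace Pool.Agent.Lib.MP_ff3579_an.X.H05

open Pool.Agent.Lib.MP_ff3579_an.X

/-- numbers below `x` coprime to `210` -/
def cop (x : ℕ) : ℕ := ((Finset.range x).filter (fun m => Nat.Coprime 210 m)).card

theorem primes_le (x : ℕ) (hx : 8 ≤ x) : (Nat.primesBelow x).card ≤ 3 + cop x := by
  have h1 : Nat.primesBelow x ⊆ ({2, 3, 5, 7} : Finset ℕ) ∪
      (((Finset.range x).filter (fun m => Nat.Coprime 210 m)).erase 1) := by
    intro p hp
    rw [Nat.mem_primesBelow] at hp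
    obtain ⟨hpx, hp⟩ := hp
    by_cases h : p ∈ ({2, 3, 5, 7} : Finset ℕ)
    · exact Finset.mem_union_left _ h
    · refine Finset.mem_union_right _ ?_
      rw [Finset.mem_erase, Finset.mem_filter, Finset.mem_range]
      refine ⟨hp.one_lt.ne', hpx, ?_⟩
      rw [Nat.coprime_comm, Nat.Prime.coprime_iff_not_dvd hp]
      intro hd
      have h210 : (210 : ℕ) = 2 * 3 * 5 * 7 := by norm_num
      rw [h210, hp.dvd_mul, hp.dvd_mul, hp.dvd_mul] at hd
      apply h
      simp only [Finset.mem_insert, Finset.mem_singleton]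
      rcases hd with ((hd | hd) | hd) | hd
      · left; exact (Nat.prime_dvd_prime_iff_eq hp (by norm_num)).1 hd
      · right; left; exact (Nat.prime_dvd_prime_iff_eq hp (by norm_num)).1 hd
      · right; right; left; exact (Nat.prime_dvd_prime_iff_eq hp (by norm_num)).1 hd
      · right; right; right; exact (Nat.prime_dvd_prime_iff_eq hp (by norm_num)).1 hd
  have h2 := Finset.card_le_card h1
  have h3 := Finset.card_union_le ({2, 3, 5, 7} : Finset ℕ)
    (((Finset.range x).filter (fun m => Nat.Coprime 210 m)).erase 1)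
  have h4 : (((Finset.range x).filter (fun m => Nat.Coprime 210 m)).erase 1).card = cop x - 1 := by
    rw [Finset.card_erase_of_mem]
    · rfl
    · rw [Finset.mem_filter, Finset.mem_range]
      exact ⟨by omega, Nat.coprime_one_right 210⟩
  have h5 : ({2, 3, 5, 7} : Finset ℕ).card = 4 := by decide
  have h6 : 1 ≤ cop x := by
    unfold cop
    rw [Nat.one_le_iff_ne_zero, Finset.card_ne_zero]
    exact ⟨1, by
      rw [Finset.mem_filter, Finset.mem_range]
      exact ⟨by omega, Nat.coprime_one_right 210⟩⟩
  omega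

theorem cop_eq_count (x : ℕ) : cop x = Nat.count (fun m => Nat.Coprime 210 m) x := by
  rw [Nat.count_eq_card_filter_range]
  rfl

theorem cop_210 (x : ℕ) : cop (x + 210) = cop x + 48 := by
  rw [cop_eq_count, cop_eq_count, Nat.count_add]
  congr 1
  have h := Nat.filter_coprime_Ico_eq_totient 210 x
  rw [Nat.count_eq_card_filter_range]
  have h2 : Nat.totient 210 = 48 := by decide +kernel
  rw [h2] at h
  rw [← h]
  have e : (Finset.Ico x (x + 210)) = (Finset.range 210).map (addLeftEmbedding x) := by
    rw [Finset.range_eq_Ico, Finset.map_add_left_Ico]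
    simp
  rw [e, Finset.filter_map, Finset.card_map]
  rfl

theorem cop_840 (x : ℕ) : cop (x + 840) = cop x + 192 := by
  have e : x + 840 = x + 210 + 210 + 210 + 210 := by ring
  rw [e, cop_210, cop_210, cop_210, cop_210]

theorem base : ∀ k < 120, 15 ≤ k → 3 + Nat.count (fun m => Nat.Coprime 210 m) (8 * k - 2) ≤ 2 * k := by
  decide +kernel

theorem small : ∀ k < 15, 1 ≤ k → (Nat.primesBelow (8 * k - 2)).card ≤ 2 * k + 2 := by
  decide +kernel

theorem big (k : ℕ) (hk : 15 ≤ k) : 3 + cop (8 * k - 2) ≤ 2 * k := by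
  induction k using Nat.strong_induction_on with
  | _ k ih =>
    rcases Nat.lt_or_ge k 120 with h | h
    · rw [cop_eq_count]
      exact base k h hk
    · have h1 := ih (k - 105) (by omega) (by omega)
      have e : 8 * k - 2 = (8 * (k - 105) - 2) + 840 := by omega
      rw [e, cop_840]
      omega

theorem pi2 : Pi2Statement := by
  refine ⟨fun k hk => ?_, fun k hk => ?_, by decide +kernel, by decide +kernel⟩
  · exact (primes_le _ (by omega)).trans (big k hk)
  · rcases Nat.lt_or_ge k 15 with h | h
    · exact small k h hk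
    · have := (primes_le _ (by omega)).trans (big k h)
      omega

end Pool.Agent.Lib.MP_ff3579_an.X.H05
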